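import Pool.Agent.helper87.FM.Spec
import Pool.Agent.helper72.FS.REL

/-! Row REB of project FM. -/

set_option autoImplicit false

namespace Pool.Agent.FM

open Polynomial Matrix Pool.Agent.helper42.NS Pool.Agent.FS

theorem REB_equiv (k m : ℕ) (S : Finset (Fin (k + m))) (hk : k ≤ S.card) :
    ∃ f : Fin (k + m) ≃ Fin (k + m), ∀ i ∈ Set.range (Fin.castAdd m : Fin k → Fin (k + m)),
      f i ∈ (S : Set (Fin (k + m))) := by
  classical
  obtain ⟨T, hTS, hT⟩ := Finset.exists_subset_card_eq hk
  have e1 : Fin k ≃ {x // x ∈ T} := (T.equivFinOfCardEq hT).symm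
  have hc : (Tᶜ : Finset (Fin (k + m))).card = m := by
    rw [Finset.card_compl, Fintype.card_fin, hT]
    omega
  have e2 : Fin m ≃ {x // x ∉ T} := by
    refine (Finset.equivFinOfCardEq hc).symm.trans (Equiv.subtypeEquivRight fun x => ?_)
    rw [Finset.mem_compl]
  refine ⟨finSumFinEquiv.symm.trans ((Equiv.sumCongr e1 e2).trans (Equiv.sumCompl fun x => x ∈ T)), ?_⟩
  rintro _ ⟨i, rfl⟩
  have h1 : finSumFinEquiv.symm (Fin.castAdd m i) = Sum.inl i := by
    rw [finSumFinEquiv_symm_apply_castAdd]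
  simp only [Equiv.trans_apply, h1, Equiv.sumCongr_apply, Sum.map_inl, Equiv.sumCompl_apply_inl]
  exact hTS (e1 i).2

theorem REB : REB_stmt := by
  classical
  intro k m n c d S hn hkS hC
  subst hn
  obtain ⟨f, hf⟩ := REB_equiv k m S hkS
  have hle : Nat.card {G : SimpleGraph (Fin (k + m)) // Kry (adj G) (uv (S : Set (Fin (k + m)))) ≠ ⊤} ≤
      Nat.card {G : SimpleGraph (Fin (k + m)) // Kry (adj G) (uv (Set.range (Fin.castAdd m))) ≠ ⊤} := by
    refine Nat.card_le_card_of_injective (fun G => ⟨G.1.comap f, fun hK => G.2 ?_⟩) ?_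
    · refine REL_top f (adj G.1) (adj (G.1.comap f)) ?_ _ _ hf hK
      intro i j
      unfold adj
      simp only [SimpleGraph.comap_adj]
    · intro G G' h
      have h' := congrArg Subtype.val h
      refine Subtype.ext (SimpleGraph.ext ?_)
      funext x y
      have h2 : (G.1.comap f).Adj (f.symm x) (f.symm y) = (G'.1.comap f).Adj (f.symm x) (f.symm y) :=
        congrArg (fun K : SimpleGraph _ => K.Adj (f.symm x) (f.symm y)) h'
      simpa using h2
  exact (Nat.mul_le_mul_right c hle).trans hC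

end Pool.Agent.FM
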