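import Pool.Agent.helper94.FM.Spec

/-!
# FM (MP_16912e_nt): row V4, the solutions with a small discriminant
-/

set_option autoImplicit false

open Finset Filter Topology NumberField Module

namespace Pool.Agent.FM

open Pool.Agent.helper9.Tors

open Classical in
/-- one fibre -/
theorem V4_fib (hV2 : V2_stmt) (p Z Y T : ℕ) (f : ℤ → ℕ) (hp : p ≠ 0) (hZ : 2 ≤ Z) (hT : T ^ 2 < 4 * (Z ^ 2) ^ p)
    (hf : ∀ (K : Type) [Field K] [NumberField K], finrank ℚ K = 2 →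
      f (discr K) = Nat.card {x : ClassGroup (𝓞 K) // x ^ p = 1})
    (d : ℤ) (hd : QD d) (hd4 : d < -4) (G : Finset ((ℕ × ℕ) × ℕ)) (hG : G ⊆ Rset p Z Y T)
    (hGb : ∀ u ∈ G, ∃ b : ℕ, 0 < b ∧ u.2 ^ 2 + (-d).toNat * b ^ 2 = 4 * (u.1.1 * u.1.2) ^ p) :
    (G.card : ℝ) ≤ 100 * (1 + 16 * (Z : ℝ) ^ 2 / √((-d : ℤ) : ℝ)) * (f d : ℝ) := by
  obtain ⟨K, hFK, hNF, hrank, hdisc⟩ := hd
  have hfd : f d = Nat.card {x : ClassGroup (𝓞 K) // x ^ p = 1} := by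
    rw [← hdisc]; exact hf K hrank
  let g : (ℕ × ℕ) × ℕ → ℕ × ℕ := fun u => (u.1.1 * u.1.2, u.2)
  have hinj : Set.InjOn g (G : Set _) := by
    intro u hu v hv huv
    obtain ⟨e1, e2⟩ := Prod.mk.inj huv
    exact Prod.ext (prs_inj (mem_Rset.mp (hG hu)).1.1 (mem_Rset.mp (hG hv)).1.1 e1) e2
  have h1 := hV2 K hrank (by rw [hdisc]; exact hd4) p hp (G.image g) (16 * Z ^ 2) (by
    intro s hs
    obtain ⟨u, hu, rfl⟩ := Finset.mem_image.mp hs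
    have huR := hG hu
    obtain ⟨⟨hq, hx1, hxT⟩, hcop, _⟩ := mem_Rset.mp huR
    obtain ⟨q1, q2, q3, q4, q5, hm1, hm2⟩ := prs_facts hq
    obtain ⟨b, hb0, hb⟩ := hGb u hu
    refine ⟨?_, hm2, hcop, ?_, b, ?_⟩
    · have : 4 ≤ Z ^ 2 := by nlinarith
      show 1 < u.1.1 * u.1.2
      omega
    · show u.2 ^ 2 < 4 * (u.1.1 * u.1.2) ^ p
      calc u.2 ^ 2 ≤ T ^ 2 := Nat.pow_le_pow_left hxT 2
        _ < 4 * (Z ^ 2) ^ p := hT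
        _ ≤ 4 * (u.1.1 * u.1.2) ^ p :=
          Nat.mul_le_mul_left _ (Nat.pow_le_pow_left hm1 p)
    · show ((u.2 : ℕ) : ℤ) ^ 2 - 4 * ((u.1.1 * u.1.2 : ℕ) : ℤ) ^ p = (b : ℤ) ^ 2 * discr K
      have h6 : (((-d).toNat : ℕ) : ℤ) = -d := Int.toNat_of_nonneg (by linarith)
      have h7 : ((u.2 : ℕ) : ℤ) ^ 2 + (((-d).toNat : ℕ) : ℤ) * (b : ℤ) ^ 2
          = 4 * ((u.1.1 * u.1.2 : ℕ) : ℤ) ^ p := by exact_mod_cast hb
      rw [h6] at h7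
      rw [hdisc]
      linarith)
  rw [Finset.card_image_of_injOn hinj, hdisc, ← hfd] at h1
  push_cast at h1 ⊢
  exact h1

open Classical in
theorem V4 (hV2 : V2_stmt) (hV3 : V3_stmt) : V4_stmt := by
  intro κ hκ C₀ hC₀
  obtain ⟨C₃, hC₃1, hC₃⟩ := hV3 κ hκ
  refine ⟨1296 + 100 * C₀ * (1025 : ℝ) ^ κ + 1600 * C₃ * C₀ * (1025 : ℝ) ^ (κ - 1 / 2), ?_, ?_⟩
  · have h1 : 0 ≤ 100 * C₀ * (1025 : ℝ) ^ κ := by positivity
    have h2 : 0 ≤ 1600 * C₃ * C₀ * (1025 : ℝ) ^ (κ - 1 / 2) := by positivity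
    linarith
  intro p Z Y T f hp hZ hT hf hsum S hSR hS
  have hZ1 : (1 : ℝ) ≤ (Z : ℝ) := by exact_mod_cast (by omega : 1 ≤ Z)
  have hZ0 : (0 : ℝ) < (Z : ℝ) := by linarith
  have hex : ∀ u : (ℕ × ℕ) × ℕ, ∃ D : ℤ, u ∈ S → (QD D ∧ D < 0 ∧ -D ≤ 1024 * (Z : ℤ) ^ 4 ∧ ∃ b : ℕ, 0 < b ∧
      u.2 ^ 2 + (-D).toNat * b ^ 2 = 4 * (u.1.1 * u.1.2) ^ p) := by
    intro u
    by_cases hu : u ∈ S
    · obtain ⟨D, hD⟩ := hS u hu
      exact ⟨D, fun _ => hD⟩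
    · exact ⟨0, fun h => absurd h hu⟩
  choose D hD using hex
  set G := S.filter (fun u => D u < -4) with hG
  set Bd := S.filter (fun u => ¬ D u < -4) with hBd
  have hcard : G.card + Bd.card = S.card := Finset.card_filter_add_card_filter_not _
  -- the bad part
  have hBdE : Bd.card ≤ 324 * Z ^ 2 * 4 := by
    refine bad_disc p Z Y T 4 hp hZ Bd ((Finset.filter_subset _ _).trans hSR) fun u hu => ?_
    rw [hBd, mem_filter] at hu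
    obtain ⟨h1, h2, h3, b, hb0, hb⟩ := hD u hu.1
    have h4 := hu.2
    exact ⟨(-D u).toNat, b, by omega, by omega, hb0, hb⟩
  have hZpow : (Z : ℝ) ^ 2 ≤ (Z : ℝ) ^ (4 * κ) := by
    rw [← Real.rpow_natCast]
    exact Real.rpow_le_rpow_of_exponent_le hZ1 (by push_cast; linarith)
  have hBd1 : (Bd.card : ℝ) ≤ 1296 * (Z : ℝ) ^ (4 * κ) := by
    have h1 : (Bd.card : ℝ) ≤ ((324 * Z ^ 2 * 4 : ℕ) : ℝ) := by exact_mod_cast hBdE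
    push_cast at h1
    linarith
  -- the main part
  obtain ⟨X, hX⟩ : ∃ X : ℕ, X = 1024 * Z ^ 4 + 1 := ⟨_, rfl⟩
  have hX1 : 1 ≤ X := by omega
  have hXZ : (X : ℝ) ≤ 1025 * (Z : ℝ) ^ 4 := by
    rw [hX]
    push_cast
    have : (1 : ℝ) ≤ (Z : ℝ) ^ 4 := one_le_pow₀ hZ1
    linarith
  set F := (Finset.Ioo (-(X : ℤ)) 0).filter QD with hF
  have hmaps : ∀ u ∈ G, D u ∈ F := by
    intro u hu
    rw [hG, mem_filter] at hu
    obtain ⟨h1, h2, h3, _⟩ := hD u hu.1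
    rw [hF, mem_filter, mem_Ioo]
    refine ⟨⟨?_, h2⟩, h1⟩
    rw [hX]
    push_cast
    linarith
  have hGsum : G.card = ∑ d ∈ F, (G.filter (fun u => D u = d)).card :=
    Finset.card_eq_sum_card_fiberwise hmaps
  have hfib : ∀ d ∈ F, ((G.filter (fun u => D u = d)).card : ℝ) ≤
      100 * (1 + 16 * (Z : ℝ) ^ 2 / √((-d : ℤ) : ℝ)) * (f d : ℝ) := by
    intro d hd
    rw [hF, mem_filter, mem_Ioo] at hd
    rcases (G.filter (fun u => D u = d)).eq_empty_or_nonempty with he | ⟨w, hw⟩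
    · rw [he, Finset.card_empty, Nat.cast_zero]
      positivity
    · rw [mem_filter, hG, mem_filter] at hw
      refine V4_fib hV2 p Z Y T f hp hZ hT hf d hd.2 (hw.2 ▸ hw.1.2) _
        ((Finset.filter_subset _ _).trans ((Finset.filter_subset _ _).trans hSR)) fun u hu => ?_
      rw [mem_filter, hG, mem_filter] at hu
      obtain ⟨h1, h2, h3, b, hb0, hb⟩ := hD u hu.1.1
      rw [hu.2] at hb
      exact ⟨b, hb0, hb⟩
  have hs1 : ∑ d ∈ F, (f d : ℝ) ≤ C₀ * (X : ℝ) ^ κ := hsum X hX1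
  obtain ⟨g, hg⟩ : ∃ g : ℤ → ℝ, g = fun d => if QD d then (f d : ℝ) else 0 := ⟨_, rfl⟩
  have hg0 : ∀ d, 0 ≤ g d := by
    intro d
    rw [hg]
    simp only
    split_ifs
    · exact Nat.cast_nonneg _
    · exact le_refl _
  have hgs : ∀ N : ℕ, 1 ≤ N → ∑ d ∈ Finset.Ioo (-(N : ℤ)) 0, g d ≤ C₀ * (N : ℝ) ^ κ := by
    intro N hN
    refine le_trans (le_of_eq ?_) (hsum N hN)
    rw [hg, Finset.sum_filter]
  have hs2 : ∑ d ∈ F, (f d : ℝ) / √((-d : ℤ) : ℝ) ≤ C₃ * C₀ * (X : ℝ) ^ (κ - 1 / 2) := by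
    refine le_trans (le_of_eq ?_) (hC₃ C₀ g hC₀ hg0 hgs X hX1)
    rw [hF, Finset.sum_filter, hg]
    refine Finset.sum_congr rfl fun d _ => ?_
    simp only
    split_ifs
    · rfl
    · rw [zero_div]
  have hGle : (G.card : ℝ) ≤ 100 * ∑ d ∈ F, (f d : ℝ) + 1600 * (Z : ℝ) ^ 2 * ∑ d ∈ F, (f d : ℝ) / √((-d : ℤ) : ℝ) := by
    calc (G.card : ℝ) = ∑ d ∈ F, ((G.filter (fun u => D u = d)).card : ℝ) := by
          rw [hGsum]; push_cast; rfl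
      _ ≤ ∑ d ∈ F, 100 * (1 + 16 * (Z : ℝ) ^ 2 / √((-d : ℤ) : ℝ)) * (f d : ℝ) := Finset.sum_le_sum hfib
      _ = _ := by
          rw [Finset.mul_sum, Finset.mul_sum, ← Finset.sum_add_distrib]
          refine Finset.sum_congr rfl fun d _ => ?_
          ring
  have hp1 : (X : ℝ) ^ κ ≤ (1025 : ℝ) ^ κ * (Z : ℝ) ^ (4 * κ) := by
    calc (X : ℝ) ^ κ ≤ (1025 * (Z : ℝ) ^ 4) ^ κ := Real.rpow_le_rpow (Nat.cast_nonneg _) hXZ (by linarith)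
      _ = (1025 : ℝ) ^ κ * (Z : ℝ) ^ (4 * κ) := by
        rw [Real.mul_rpow (by norm_num) (by positivity), ← Real.rpow_natCast, ← Real.rpow_mul hZ0.le]
        norm_num
  have hp2 : (Z : ℝ) ^ 2 * (X : ℝ) ^ (κ - 1 / 2) ≤ (1025 : ℝ) ^ (κ - 1 / 2) * (Z : ℝ) ^ (4 * κ) := by
    have h1 : (X : ℝ) ^ (κ - 1 / 2) ≤ (1025 : ℝ) ^ (κ - 1 / 2) * (Z : ℝ) ^ (4 * (κ - 1 / 2)) := by
      calc (X : ℝ) ^ (κ - 1 / 2) ≤ (1025 * (Z : ℝ) ^ 4) ^ (κ - 1 / 2) :=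
            Real.rpow_le_rpow (Nat.cast_nonneg _) hXZ (by linarith)
        _ = _ := by
          rw [Real.mul_rpow (by norm_num) (by positivity), ← Real.rpow_natCast, ← Real.rpow_mul hZ0.le]
          norm_num
    have h2 : (Z : ℝ) ^ 2 * (Z : ℝ) ^ (4 * (κ - 1 / 2)) = (Z : ℝ) ^ (4 * κ) := by
      rw [← Real.rpow_natCast, ← Real.rpow_add hZ0]
      congr 1
      push_cast
      ring
    calc (Z : ℝ) ^ 2 * (X : ℝ) ^ (κ - 1 / 2) ≤ (Z : ℝ) ^ 2 * ((1025 : ℝ) ^ (κ - 1 / 2) * (Z : ℝ) ^ (4 * (κ - 1 / 2))) :=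
          mul_le_mul_of_nonneg_left h1 (by positivity)
      _ = (1025 : ℝ) ^ (κ - 1 / 2) * ((Z : ℝ) ^ 2 * (Z : ℝ) ^ (4 * (κ - 1 / 2))) := by ring
      _ = _ := by rw [h2]
  have hA : 100 * ∑ d ∈ F, (f d : ℝ) ≤ 100 * C₀ * (1025 : ℝ) ^ κ * (Z : ℝ) ^ (4 * κ) := by
    have h1 := mul_le_mul_of_nonneg_left hp1 hC₀
    nlinarith
  have hB : 1600 * (Z : ℝ) ^ 2 * ∑ d ∈ F, (f d : ℝ) / √((-d : ℤ) : ℝ) ≤
      1600 * C₃ * C₀ * (1025 : ℝ) ^ (κ - 1 / 2) * (Z : ℝ) ^ (4 * κ) := by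
    have h1 : 0 ≤ C₃ * C₀ := by positivity
    have h2 := mul_le_mul_of_nonneg_left hp2 h1
    have h3 := mul_le_mul_of_nonneg_left hs2 (by positivity : (0 : ℝ) ≤ (Z : ℝ) ^ 2)
    nlinarith
  have hSc : (S.card : ℝ) = G.card + Bd.card := by rw [← hcard]; push_cast; rfl
  rw [hSc]
  nlinarith

end Pool.Agent.FM
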